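import Mathlib
import Pool.Agent.J6H8.Cls.Main

set_option autoImplicit false

/-!
The cycles of the 3x+1 map on the integers whose elements agree in absolute value up to a factor 4.
-/

namespace Pool.Agent.Results.MP_edb5be_nt.FactorFour

/-- The 3x+1 map on the integers. -/
def T (x : ℤ) : ℤ := if x % 2 = 0 then x / 2 else (3 * x + 1) / 2

/-- `Z` is a cycle of `T`. -/
def IsCycle (Z : Finset ℤ) : Prop :=
  ∃ (x : ℤ) (p : ℕ), 1 ≤ p ∧ T^[p] x = x ∧ Z = (Finset.range p).image fun i => T^[i] x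

/-- The cycles of the 3x+1 map on the integers in which no absolute value of an element exceeds four
times another one are exactly `{0}`, `{-1}`, `{1, 2}` and `{-5, -7, -10}`. -/
theorem result (Z : Finset ℤ) :
    (IsCycle Z ∧ ∀ x ∈ Z, ∀ y ∈ Z, |x| ≤ 4 * |y|) ↔
      Z = {0} ∨ Z = {-1} ∨ Z = {1, 2} ∨ Z = {-5, -7, -10} :=
  Pool.Agent.J6H8.Cls.class4_iff Z

end Pool.Agent.Results.MP_edb5be_nt.FactorFour
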