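import Mathlib
import Pool.Agent.J6H87.CY.GD
import Pool.Agent.J6H87.CY.PF

set_option autoImplicit false

/-!
# Large divisors of the elements of the cycles of the 3x+1 map

Let `f` be a polynomial with integer coefficients, `s ≥ 0` and `δ, ε > 0`. In all but finitely many cycles
of the 3x+1 map on the integers, for every set `S` of at most `s` primes (which may depend on the cycle)
at most `ε m` of the `m` circuits contain an `x` such that the `S`-part of `f(x)` is at least `|x| ^ δ`.
The same holds for the divisors from any set `G` of integers whose elements up to `X` have a common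
multiple `≤ X ^ B`, for instance a single number or a chain of numbers each dividing the next, and if each
circuit is counted with the weight `log |y|`, where `y` is the local minimum at which it starts. The numbers
`x ≡ ξ` modulo `2 ^ b`, `ξ` a zero of `f` which is a rational cycle point (a fixed point of a composition
of the branches `x/2`, `(3x+1)/2` in which both occur) are not counted. For `f = X`, `f = X + 1` and
`S = {2}` this contains the theorem that few circuits are long (starting file `R343.SC`), which is used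
in the proof.

Proof. In a piece of trajectory whose number `n` of steps is small compared with the logarithms of its
terms, two terms satisfy `2 ^ n y - 3 ^ o x = R` with a small `R`. A common divisor of `f(x)` and `f(y)`,
prime to `6`, divides an integer which is nonzero and small unless the composition of the branches maps
a zero of `f` to a zero of `f`. So, roughly, the divisors belonging to many terms of a piece are nearly
coprime, but all of them divide an integer `≤ |x| ^ C`.
-/

namespace Pool.Agent.Results.MP_edb5be_nt.LargeDivisors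

open Polynomial

/-- The 3x+1 map on the integers. -/
def T (x : ℤ) : ℤ := if x % 2 = 0 then x / 2 else (3 * x + 1) / 2

/-- `Z` is a cycle of `T`. -/
def IsCycle (Z : Finset ℤ) : Prop :=
  ∃ (x : ℤ) (p : ℕ), 1 ≤ p ∧ T^[p] x = x ∧ Z = (Finset.range p).image fun i => T^[i] x

/-- The local minima of `Z`: the odd elements which are images of even elements of `Z`. At each of them
starts a circuit. -/
def minima (Z : Finset ℤ) : Finset ℤ := Z.filter fun y => y % 2 = 1 ∧ ∃ z ∈ Z, z % 2 = 0 ∧ T z = y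

/-- The number of steps from `y` to the next local minimum, that is, the least `n ≥ 1` such that
`T ^ (n-1) y` is even and `T ^ n y` is odd. -/
noncomputable def circuitLength (y : ℤ) : ℕ := sInf {n | 1 ≤ n ∧ T^[n - 1] y % 2 = 0 ∧ T^[n] y % 2 = 1}

/-- The branches `(3q+1)/2` and `q/2`. -/
def branch (b : Bool) (q : ℚ) : ℚ := if b then (3 * q + 1) / 2 else q / 2

/-- The composition of branches given by a word. -/
def path (w : List Bool) (q : ℚ) : ℚ := w.foldl (fun r b => branch b r) q

/-- `x ≡ ξ` modulo `2 ^ b`, where `ξ` (which is not `0` or `-1`) is a zero of `f` and is fixed by a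
composition of branches in which both branches occur. -/
def Shadows (b : ℕ) (f : ℤ[X]) (x : ℤ) : Prop :=
  ∃ (ξ : ℚ) (w : List Bool), aeval ξ f = 0 ∧ ξ ≠ 0 ∧ ξ ≠ -1 ∧
    true ∈ w ∧ false ∈ w ∧ path w ξ = ξ ∧ (b : ℤ) ≤ padicValRat 2 ((x : ℚ) - ξ)

/-- For every `X ≥ 2` the positive elements of `G` up to `X` have a common multiple `≤ X ^ B`. -/
def Slow (B : ℕ) (G : Set ℕ) : Prop :=
  ∀ X : ℕ, 2 ≤ X → ∃ M : ℕ, 0 < M ∧ M ≤ X ^ B ∧ ∀ g ∈ G, 0 < g → g ≤ X → g ∣ M

/-- `f(x) ≠ 0` has a divisor `g ∈ G` with `g ≥ |x| ^ δ`. -/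
def HasDivisor (f : ℤ[X]) (G : Set ℕ) (δ : ℝ) (x : ℤ) : Prop :=
  f.eval x ≠ 0 ∧ ∃ g ∈ G, (g : ℤ) ∣ f.eval x ∧ |(x : ℝ)| ^ δ ≤ g

/-- The `S`-part of `k ≠ 0`: the product of the powers of the primes in `S` which divide `k`. -/
def SPart (S : Finset ℕ) (k : ℤ) : ℕ := ∏ p ∈ S, p ^ padicValInt p k

/-- The local minima of `Z` whose circuit contains an element of `P`. -/
noncomputable def meeting (P : Set ℤ) (Z : Finset ℤ) : Finset ℤ :=
  open Classical in (minima Z).filter fun y => ∃ j < circuitLength y, T^[j] y ∈ P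

/-- At most `ε m` of the `m` circuits of `Z` meet `P`, and the same holds if the circuits are counted
with the weights `log |y|`, where `y` is the local minimum at which the circuit starts. -/
def FewMeet (ε : ℝ) (P : Set ℤ) (Z : Finset ℤ) : Prop :=
  ((meeting P Z).card : ℝ) ≤ ε * (minima Z).card ∧
    ∑ y ∈ meeting P Z, Real.log |(y : ℝ)| ≤ ε * ∑ y ∈ minima Z, Real.log |(y : ℝ)|

lemma shadows_iff (b : ℕ) (f : ℤ[X]) (x : ℤ) : Shadows b f x ↔ Pool.Agent.J6H87.CY.ShadowG b f x := by
  constructor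
  · rintro ⟨ξ, w, h1, -, -, h2, h3, h4, h5⟩
    exact ⟨ξ, w, h1, h2, h3, h4, h5⟩
  · rintro ⟨ξ, w, h1, h2, h3, h4, h5⟩
    refine ⟨ξ, w, h1, ?_, ?_, h2, h3, h4, h5⟩
    · rintro rfl
      exact Pool.Agent.J6H87.CY.path_zero h2 h4
    · rintro rfl
      exact Pool.Agent.J6H87.CY.path_neg_one h3 h4

lemma meeting_subset {P : Set ℤ} {Q : ℤ → Prop} (h : ∀ x ∈ P, Q x) (Z : Finset ℤ) :
    meeting P Z ⊆ Pool.Agent.J6H87.CY.hit Q Z := by
  classical
  intro y hy
  unfold meeting at hy
  unfold Pool.Agent.J6H87.CY.hit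
  rw [Finset.mem_filter] at hy ⊢
  obtain ⟨h1, j, hj, h2⟩ := hy
  exact ⟨h1, j, hj, h _ h2⟩

lemma hit_loc (Q : ℤ → Prop) (Z : Finset ℤ) :
    Pool.Agent.J6H87.CY.hit Q Z ⊆ Pool.Agent.R343.SC.loc Z := by
  classical
  intro y hy
  unfold Pool.Agent.J6H87.CY.hit at hy
  exact (Finset.mem_filter.1 hy).1

lemma few_of {f : ℤ[X]} {δ ε : ℝ} {b B : ℕ} {G : Set ℕ} (hG : Slow B G) {P : Set ℤ}
    (hP : ∀ x ∈ P, HasDivisor f G δ x ∧ ¬ Shadows b f x) {Z : Finset ℤ} (hZ : IsCycle Z)
    (h : ¬ FewMeet ε P Z) : IsCycle Z ∧ ∃ G : Set ℕ, Pool.Agent.J6H87.CY.SlowG B G ∧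
      (ε * (Pool.Agent.R343.SC.loc Z).card <
          (Pool.Agent.J6H87.CY.hit (Pool.Agent.J6H87.CY.PD f G δ b) Z).card ∨
        ε * ∑ y ∈ Pool.Agent.R343.SC.loc Z, Real.log |(y : ℝ)| <
          ∑ y ∈ Pool.Agent.J6H87.CY.hit (Pool.Agent.J6H87.CY.PD f G δ b) Z, Real.log |(y : ℝ)|) := by
  refine ⟨hZ, G, hG, ?_⟩
  have hsub := meeting_subset (P := P) (Q := Pool.Agent.J6H87.CY.PD f G δ b)
    (fun x hx => ⟨(hP x hx).1.1, (hP x hx).1.2, fun hs => (hP x hx).2 ((shadows_iff b f x).2 hs)⟩) Z
  unfold FewMeet at h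
  rw [not_and_or, not_le, not_le] at h
  rcases h with h | h
  · left
    refine lt_of_lt_of_le h ?_
    exact_mod_cast Finset.card_le_card hsub
  · right
    refine lt_of_lt_of_le h ?_
    apply Finset.sum_le_sum_of_subset_of_nonneg hsub
    intro y hy _
    exact Real.log_nonneg (Pool.Agent.R343.SC.loc_ne_zero (hit_loc _ _ hy))

/-- Let `f` be a polynomial with integer coefficients, `δ, ε > 0` and `b, B, s ≥ 0`. (1) All but finitely
many cycles `Z` have the following property: for every set `G` of positive integers whose elements up to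
`X` have a common multiple `≤ X ^ B`, for all `X ≥ 2`, few circuits of `Z` (a proportion of at most `ε`,
also if the circuits are counted with the weights `log |y|`) contain an `x` such that `f(x) ≠ 0` has
a divisor `g ∈ G` with `g ≥ |x| ^ δ`, the `x ≡ ξ` modulo `2 ^ b` excepted, where `ξ` is a zero of `f`
which is a rational cycle point. (2) All but finitely many cycles `Z` have the following property: for
every set `S` of at most `s` primes few circuits of `Z` contain such an `x` with `f(x) ≠ 0` for which the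
`S`-part of `f(x)` is at least `|x| ^ δ`. -/
theorem result (f : ℤ[X]) (δ ε : ℝ) (hδ : 0 < δ) (hε : 0 < ε) (b B s : ℕ) :
    {Z : Finset ℤ | IsCycle Z ∧ ¬ ∀ G : Set ℕ, Slow B G →
      FewMeet ε {x | HasDivisor f G δ x ∧ ¬ Shadows b f x} Z}.Finite ∧
    {Z : Finset ℤ | IsCycle Z ∧ ¬ ∀ S : Finset ℕ, (∀ p ∈ S, p.Prime) → S.card ≤ s →
      FewMeet ε {x | (f.eval x ≠ 0 ∧ |(x : ℝ)| ^ δ ≤ SPart S (f.eval x)) ∧ ¬ Shadows b f x} Z}.Finite := by
  constructor
  · refine (Pool.Agent.J6H87.CY.divisor_finite f hδ hε b B).subset ?_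
    rintro Z ⟨hZ, h⟩
    push Not at h
    obtain ⟨G, hG, h⟩ := h
    exact few_of hG (fun x hx => hx) hZ h
  · refine (Pool.Agent.J6H87.CY.divisor_finite f hδ hε b s).subset ?_
    rintro Z ⟨hZ, h⟩
    push Not at h
    obtain ⟨S, hS, hs, h⟩ := h
    refine few_of (Pool.Agent.J6H87.CY.slow_GS hS hs) (fun x hx => ⟨⟨hx.1.1, ?_⟩, hx.2⟩) hZ h
    refine ⟨SPart S (f.eval x), ⟨f.eval x, rfl⟩, ?_, hx.1.2⟩
    exact Int.natCast_dvd.2 (Pool.Agent.J6H87.CY.sP_dvd hS (f.eval x))

end Pool.Agent.Results.MP_edb5be_nt.LargeDivisors
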