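import Mathlib
import Pool.Agent.J6H87.CY.PF

set_option autoImplicit false

/-!
# Values of polynomials in the cycles of the 3x+1 map

Let `f` be a polynomial of degree at least two with rational coefficients. For every `ε > 0`, in all but
finitely many cycles of the 3x+1 map on the integers at most `ε m` of the `m` circuits contain a value
`f(a)`, `a ∈ ℤ`; for example a square, a perfect power with exponent at most `K`, a number `a² + a + 1`,
a triangular number. The same holds if each circuit is counted with the weight `log |y|`, where `y` is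
the local minimum at which it starts. There is one natural exception: if `f = A (X + β) ^ d + ξ` and `ξ`
is a rational cycle point (a fixed point of a composition of the branches `x/2`, `(3x+1)/2` in which both
occur; for example `f = X² + 1`) the values which are `2`-adically close to `ξ` are not counted.

Proof. Only few circuits are long (starting file `R343.SC`, the subspace theorem). In a piece of
trajectory whose number `n` of steps is small compared with the logarithms of its terms, two values
`f(a)`, `f(b)` satisfy `2 ^ n f(b) - 3 ^ o f(a) = R` with a small `R > 0`. Among more than `d²` values there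
are two for which `n` and `o` are divisible by `d`; then completing the `d`-th power shows that the
equation is impossible, unless `f = A (X + β) ^ d + ξ` and the composition of the branches along the
trajectory fixes `ξ`.
-/

namespace Pool.Agent.Results.MP_edb5be_nt.PolynomialValues

open Polynomial

/-- The 3x+1 map on the integers. -/
def T (x : ℤ) : ℤ := if x % 2 = 0 then x / 2 else (3 * x + 1) / 2

/-- `Z` is a cycle of `T`. -/
def IsCycle (Z : Finset ℤ) : Prop :=
  ∃ (x : ℤ) (p : ℕ), 1 ≤ p ∧ T^[p] x = x ∧ Z = (Finset.range p).image fun i => T^[i] x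

/-- The local minima of `Z`: the odd elements which are images of even elements of `Z`. At each of them
starts a circuit. -/
def minima (Z : Finset ℤ) : Finset ℤ := Z.filter fun y => y % 2 = 1 ∧ ∃ z ∈ Z, z % 2 = 0 ∧ T z = y

/-- The number of steps from `y` to the next local minimum, that is, the least `n ≥ 1` such that
`T ^ (n-1) y` is even and `T ^ n y` is odd. -/
noncomputable def circuitLength (y : ℤ) : ℕ := sInf {n | 1 ≤ n ∧ T^[n - 1] y % 2 = 0 ∧ T^[n] y % 2 = 1}

/-- The branches `(3q+1)/2` and `q/2`. -/
def branch (b : Bool) (q : ℚ) : ℚ := if b then (3 * q + 1) / 2 else q / 2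

/-- The composition of branches given by a word. -/
def path (w : List Bool) (q : ℚ) : ℚ := w.foldl (fun r b => branch b r) q

/-- `f = A (X + β) ^ d + ξ`, where `ξ` (which is not `0` or `-1`) is fixed by a composition of branches in
which both branches occur, and `x ≡ ξ` modulo `2 ^ b`. -/
def Shadows (b : ℕ) (f : ℚ[X]) (x : ℤ) : Prop :=
  ∃ (A β ξ : ℚ) (w : List Bool), f = C A * (X + C β) ^ f.natDegree + C ξ ∧ ξ ≠ 0 ∧ ξ ≠ -1 ∧
    true ∈ w ∧ false ∈ w ∧ path w ξ = ξ ∧ (b : ℤ) ≤ padicValRat 2 ((x : ℚ) - ξ)

/-- The local minima of `Z` whose circuit contains a value `f(a)`, `a ∈ ℤ`, `f ∈ F`, which does not shadow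
the critical value of `f`. -/
noncomputable def valueMinima (b : ℕ) (F : Finset ℚ[X]) (Z : Finset ℤ) : Finset ℤ :=
  open Classical in (minima Z).filter fun y => ∃ j < circuitLength y, ∃ f ∈ F,
    (∃ a : ℤ, f.eval (a : ℚ) = T^[j] y) ∧ ¬ Shadows b f (T^[j] y)

/-- Let `F` be a finite set of polynomials of degree at least two with rational coefficients, `b ≥ 0` and
`ε > 0`. (1) In all but finitely many cycles `Z` at most `ε m` of the `m` circuits contain a value at an
integer of a polynomial `f ∈ F`, values `x ≡ ξ` modulo `2 ^ b` excepted if `f = A (X + β) ^ d + ξ` with a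
rational cycle point `ξ ≠ 0, -1`. (2) The same if the circuits are counted with the weights `log |y|`. -/
theorem result (F : Finset ℚ[X]) (hF : ∀ f ∈ F, 2 ≤ f.natDegree) (b : ℕ) (ε : ℝ) (hε : 0 < ε) :
    {Z : Finset ℤ | IsCycle Z ∧ ε * (minima Z).card < (valueMinima b F Z).card}.Finite ∧
    {Z : Finset ℤ | IsCycle Z ∧ ε * ∑ y ∈ minima Z, Real.log |(y : ℝ)| <
      ∑ y ∈ valueMinima b F Z, Real.log |(y : ℝ)|}.Finite := by
  have key : ∀ Z, valueMinima b F Z = Pool.Agent.J6H87.CY.hit (Pool.Agent.J6H87.CY.PU b F) Z := by
    classical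
    intro Z
    ext y
    unfold valueMinima Pool.Agent.J6H87.CY.hit
    rw [Finset.mem_filter, Finset.mem_filter]
    have hs : ∀ (f : ℚ[X]) (x : ℤ), Shadows b f x ↔ Pool.Agent.J6H87.CY.Shadow b f x := by
      intro f x
      constructor
      · rintro ⟨A, β, ξ, w, h1, -, -, h2, h3, h4, h5⟩
        exact ⟨A, β, ξ, w, h1, h2, h3, h4, h5⟩
      · rintro ⟨A, β, ξ, w, h1, h2, h3, h4, h5⟩
        refine ⟨A, β, ξ, w, h1, ?_, ?_, h2, h3, h4, h5⟩
        · rintro rfl
          exact Pool.Agent.J6H87.CY.path_zero h2 h4
        · rintro rfl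
          exact Pool.Agent.J6H87.CY.path_neg_one h3 h4
    constructor
    · rintro ⟨h1, j, hj, f, hf, ha, hS⟩
      exact ⟨h1, j, hj, f, hf, ha, fun h => hS ((hs _ _).2 h)⟩
    · rintro ⟨h1, j, hj, f, hf, ha, hS⟩
      exact ⟨h1, j, hj, f, hf, ha, fun h => hS ((hs _ _).1 h)⟩
  constructor
  · have h := Pool.Agent.J6H87.CY.count_poly F hF b ε hε
    refine h.subset ?_
    rintro Z ⟨h1, h2⟩
    rw [key] at h2
    exact ⟨h1, h2⟩
  · have h := Pool.Agent.J6H87.CY.weight_poly F hF b ε hε
    refine h.subset ?_
    rintro Z ⟨h1, h2⟩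
    rw [key] at h2
    exact ⟨h1, h2⟩

end Pool.Agent.Results.MP_edb5be_nt.PolynomialValues
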